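import Pool.Agent.H68.Fa6
import Pool.Agent.H68.Fa9

set_option autoImplicit false

namespace Pool.Agent.Results.MP_456268_al.Unique

open Pool.Agent.H68.FaD Pool.Agent.H68.Fa Pool.Agent.H68.Sat

/-- A subformation `F` of a one-generated saturated formation has at most one factorization into
non-decomposable formations (the hypothesis `F ≠ FF` is not needed). -/
theorem result (G₀ : Type) [Group G₀] [Finite G₀] (F : Cls) (_hF : IsFormation F)
    (hM : ∀ (G : Type) [Group G], F G → satGen G₀ G)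
    (F₁ H₁ : Cls) (L M : List Cls)
    (hL : ∀ X ∈ F₁ :: L, IsFormation X ∧ X ≠ trivialCls ∧ ¬ ∃ A B : Cls, IsFormation A ∧
      IsFormation B ∧ A ≠ trivialCls ∧ B ≠ trivialCls ∧ X = mul A B)
    (hH : ∀ X ∈ H₁ :: M, IsFormation X ∧ X ≠ trivialCls ∧ ¬ ∃ A B : Cls, IsFormation A ∧
      IsFormation B ∧ A ≠ trivialCls ∧ B ≠ trivialCls ∧ X = mul A B)
    (e₁ : F = prod F₁ L) (e₂ : F = prod H₁ M) :
    F₁ :: L = H₁ :: M := by
  have k : ∀ {L : List Cls}, (∀ X ∈ L, IsFormation X ∧ X ≠ trivialCls ∧ ¬ ∃ A B : Cls,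
      IsFormation A ∧ IsFormation B ∧ A ≠ trivialCls ∧ B ≠ trivialCls ∧ X = mul A B) →
      ∀ X ∈ L, FO X ∧ Ind X := fun h X hX => ⟨fo_iff.1 (h X hX).1, (h X hX).2.1,
    fun A B a b e => by_contra fun hn => (h X hX).2.2
      ⟨A, B, fo_iff.2 a, fo_iff.2 b, fun e => hn (Or.inl e), fun e => hn (Or.inr e), e⟩⟩
  rw [prod_eq L F₁ fun X hX => (k hL X hX).1] at e₁
  rw [prod_eq M H₁ fun X hX => (k hH X hX).1] at e₂
  exact uniq (Nat.card_pos (α := G₀)).ne' _ _ (k hL) (k hH)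
    (e₁ ▸ fun G _ h => sat_ee G₀ G (hM G h)) (e₁.symm.trans e₂)

end Pool.Agent.Results.MP_456268_al.Unique
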